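import Mathlib

/-!
# MP_c87117_nt, Q1: vanishing of `∑ C(2k,k)² U_k(11,1)` modulo `p`

Put `h = (p-1)/2` and `H(l) = ∑_{i ≤ h} C(h,i)² l^i` in `𝔽_p`.

* If `w² = 13` in `𝔽_p`, then `3 w S(p) = H(88+24w) - H(88-24w)`.
* The Legendre curves with parameters `l = 88+24w` and `l' = 88-24w` are linked by an isogeny of
  degree three, with `x`-coordinate `N/D`, `N = x (x+28+8w)²`, `D = ((7+2w) x + 22+6w)²`:
  `N-D = (x-1)(x-22-6w)²`, `N-l'D = (x-l)(x-4)²`,
  `N'D-ND' = (7+2w) ((7+2w)x+22+6w) (x+28+8w)(x-22-6w)(x-4)`.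
* The Cartier operator on `𝔽_p[x]` is applied to
  `(N(N-D)(N-l'D))^h D^h (N'D-ND') = (7+2w) g^p (x(x-1)(x-l))^h` in two ways, which gives
  `H(l) = H(l')`.
-/

set_option autoImplicit false

open Polynomial Finset

namespace Pool.Agent.Results.MP_c87117_nt.Vanishing

section Cartier

variable {p : ℕ} [Fact p.Prime]

lemma p0 : p ≠ 0 := (Fact.out : p.Prime).ne_zero

/-- `T f` is `X` times the Cartier operator of `f` -/
noncomputable def T : (ZMod p)[X] →ₗ[ZMod p] (ZMod p)[X] where
  toFun f := contract p (X * f)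
  map_add' f g := by rw [mul_add, contract_add p0]
  map_smul' a f := by
    ext n
    simp [coeff_contract p0]

lemma T_coeff (f : (ZMod p)[X]) (n : ℕ) : (T f).coeff n = (X * f).coeff (n * p) := by
  show (contract p (X * f)).coeff n = _
  rw [coeff_contract p0]

lemma T_mul_pow (f g : (ZMod p)[X]) : T (f * g ^ p) = T f * g := by
  show contract p (X * (f * g ^ p)) = contract p (X * f) * g
  rw [← ZMod.expand_card, ← mul_assoc, contract_mul_expand p0]

lemma T_C_mul (a : ZMod p) (f : (ZMod p)[X]) : T (C a * f) = C a * T f := by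
  rw [← smul_eq_C_mul, map_smul, smul_eq_C_mul]

lemma T_derivative (f : (ZMod p)[X]) : T (derivative f) = 0 := by
  ext n
  rw [T_coeff]
  rcases n with _ | n
  · simp
  · have hp : 0 < p := Nat.pos_of_ne_zero p0
    have h1 : (n + 1) * p = ((n + 1) * p - 1) + 1 := by
      have : 0 < (n + 1) * p := by positivity
      omega
    rw [h1, coeff_X_mul, coeff_derivative]
    have h2 : ((((n + 1) * p - 1 : ℕ) : ZMod p) + 1) = (((n + 1) * p : ℕ) : ZMod p) := by
      conv_rhs => rw [h1]
      push_cast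
      ring
    rw [h2]
    push_cast
    simp

/-- the property `C(u^(p-1) u') = u'` of the Cartier operator -/
def Good (u : (ZMod p)[X]) : Prop := T (u ^ (p - 1) * derivative u) = X * derivative u

lemma Good.mul {u v : (ZMod p)[X]} (hu : Good u) (hv : Good v) : Good (u * v) := by
  unfold Good at *
  have hp : p - 1 + 1 = p := Nat.succ_pred_eq_of_pos (Nat.pos_of_ne_zero p0)
  have h1 : (u * v) ^ (p - 1) * derivative (u * v)
      = (u ^ (p - 1) * derivative u) * v ^ p + (v ^ (p - 1) * derivative v) * u ^ p := by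
    have hpw : ∀ x : (ZMod p)[X], x ^ p = x ^ (p - 1) * x := fun x => by rw [← pow_succ, hp]
    rw [derivative_mul, hpw u, hpw v]
    ring
  rw [h1, map_add, T_mul_pow, T_mul_pow, hu, hv, derivative_mul]
  ring

lemma good_lin (a b : ZMod p) : Good (C a * X + C b) := by
  unfold Good
  have hp : 2 ≤ p := (Fact.out : p.Prime).two_le
  have hd : derivative (C a * X + C b) = C a := by simp
  rw [hd, mul_comm _ (C a), T_C_mul]
  rcases eq_or_ne a 0 with rfl | ha
  · simp
  · have hdeg : natDegree (C a * X + C b) ≤ 1 := natDegree_linear_le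
    have hdeg' : natDegree ((C a * X + C b) ^ (p - 1)) ≤ p - 1 := by
      calc natDegree ((C a * X + C b) ^ (p - 1)) ≤ (p - 1) * natDegree (C a * X + C b) :=
            natDegree_pow_le
        _ ≤ (p - 1) * 1 := Nat.mul_le_mul_left _ hdeg
        _ = p - 1 := by ring
    have h : T ((C a * X + C b) ^ (p - 1)) = X := by
      ext n
      rw [T_coeff, coeff_X]
      rcases n with _ | n
      · simp
      · have h1 : (n + 1) * p = ((n + 1) * p - 1) + 1 := by
          have : 0 < (n + 1) * p := by positivity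
          omega
        rw [h1, coeff_X_mul]
        rcases n with _ | n
        · have h2 : (0 + 1) * p - 1 = (p - 1) * 1 := by ring_nf
          rw [h2, coeff_pow_of_natDegree_le hdeg]
          simp [ZMod.pow_card_sub_one_eq_one ha]
        · have h2 : p - 1 < (n + 1 + 1) * p - 1 := by
            have : p * 2 ≤ (n + 1 + 1) * p := by nlinarith
            omega
          rw [coeff_eq_zero_of_natDegree_lt (lt_of_le_of_lt hdeg' h2)]
          simp
    rw [h]
    ring

lemma T_term {N D : (ZMod p)[X]} (hN : Good N) (hD : Good D) (j m : ℕ) (hjm : j + m + 2 = 2 * p) :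
    T (N ^ j * D ^ m * (derivative N * D - N * derivative D))
      = if j + 1 = p then X * (derivative N * D - N * derivative D) else 0 := by
  have hp : p - 1 + 1 = p := Nat.succ_pred_eq_of_pos (Nat.pos_of_ne_zero p0)
  split_ifs with hj
  · have hj' : j = p - 1 := by omega
    have hm' : m = p - 1 := by omega
    have h1 : N ^ j * D ^ m * (derivative N * D - N * derivative D)
        = (N ^ (p - 1) * derivative N) * D ^ p - (D ^ (p - 1) * derivative D) * N ^ p := by
      have hpw : ∀ x : (ZMod p)[X], x ^ p = x ^ (p - 1) * x := fun x => by rw [← pow_succ, hp]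
      rw [hj', hm', hpw N, hpw D]
      ring
    rw [h1, map_sub, T_mul_pow, T_mul_pow, hN, hD]
    ring
  · have h1 : derivative (N ^ (j + 1) * D ^ (m + 1))
        = C ((j : ZMod p) + 1) * (N ^ j * D ^ m * (derivative N * D - N * derivative D)) := by
      rw [derivative_mul, derivative_pow, derivative_pow]
      have h2 : ((m + 1 : ℕ) : ZMod p) = - ((j : ZMod p) + 1) := by
        have h3 : ((j + m + 2 : ℕ) : ZMod p) = 0 := by
          rw [hjm]
          push_cast
          simp
        push_cast at h3 ⊢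
        linear_combination h3
      rw [h2]
      simp only [Nat.add_sub_cancel, map_neg, map_add, map_one, map_natCast, Nat.cast_add,
        Nat.cast_one]
      ring
    have h2 := T_derivative (N ^ (j + 1) * D ^ (m + 1))
    rw [h1, T_C_mul] at h2
    rcases mul_eq_zero.mp h2 with h3 | h3
    · exfalso
      rw [C_eq_zero] at h3
      have h4 : ((j + 1 : ℕ) : ZMod p) = 0 := by
        push_cast
        exact h3
      rw [ZMod.natCast_eq_zero_iff] at h4
      obtain ⟨c, hc⟩ := h4
      have hc2 : c < 2 := by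
        by_contra hcc
        push Not at hcc
        have : p * 2 ≤ p * c := Nat.mul_le_mul_left _ hcc
        omega
      interval_cases c <;> omega
    · exact h3

/-- the truncated hypergeometric (Hasse) polynomial -/
def H (h : ℕ) (l : ZMod p) : ZMod p := ∑ i ∈ range (h + 1), ((h.choose i : ℕ) : ZMod p) ^ 2 * l ^ i

lemma T_sum {N D : (ZMod p)[X]} (hN : Good N) (hD : Good D) (h : ℕ) (hh : 2 * h + 1 = p)
    (l : ZMod p) :
    T ((N * (N - D) * (N - C l * D)) ^ h * D ^ h * (derivative N * D - N * derivative D))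
      = C ((-1) ^ h * H h l) * (X * (derivative N * D - N * derivative D)) := by
  have e1 : (N - D) ^ h = ∑ i ∈ range (h + 1), N ^ i * (-D) ^ (h - i) * ((h.choose i : ℕ) : (ZMod p)[X]) := by
    rw [sub_eq_add_neg, add_pow]
  have e2 : (N - C l * D) ^ h
      = ∑ j ∈ range (h + 1), (-(C l * D)) ^ j * N ^ (h - j) * ((h.choose j : ℕ) : (ZMod p)[X]) := by
    rw [sub_eq_add_neg, add_comm, add_pow]
  have e3 : (N * (N - D) * (N - C l * D)) ^ h * D ^ h * (derivative N * D - N * derivative D)
      = ∑ i ∈ range (h + 1), ∑ j ∈ range (h + 1),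
        C ((-1) ^ (h - i) * (-l) ^ j * ((h.choose i : ℕ) : ZMod p) * ((h.choose j : ℕ) : ZMod p))
        * (N ^ (h + i + (h - j)) * D ^ (h + (h - i) + j)
          * (derivative N * D - N * derivative D)) := by
    rw [mul_pow, mul_pow, e1, e2, mul_assoc (N ^ h), Finset.sum_mul_sum, Finset.mul_sum,
      Finset.sum_mul, Finset.sum_mul]
    refine Finset.sum_congr rfl fun i hi => ?_
    rw [Finset.mul_sum, Finset.sum_mul, Finset.sum_mul]
    refine Finset.sum_congr rfl fun j hj => ?_
    have q1 : (-D) ^ (h - i) = (-1) ^ (h - i) * D ^ (h - i) := by rw [← neg_one_mul, mul_pow]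
    have q2 : (-(C l * D)) ^ j = C ((-l) ^ j) * D ^ j := by
      rw [map_pow, map_neg, ← mul_pow]
      ring
    rw [q1, q2]
    simp only [map_mul, map_pow, map_neg, map_one, map_natCast, pow_add]
    ring
  rw [e3, map_sum]
  have e4 : ∀ i ∈ range (h + 1), T (∑ j ∈ range (h + 1),
        C ((-1) ^ (h - i) * (-l) ^ j * ((h.choose i : ℕ) : ZMod p) * ((h.choose j : ℕ) : ZMod p))
        * (N ^ (h + i + (h - j)) * D ^ (h + (h - i) + j)
          * (derivative N * D - N * derivative D)))
      = C ((-1) ^ h * (((h.choose i : ℕ) : ZMod p) ^ 2 * l ^ i))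
        * (X * (derivative N * D - N * derivative D)) := by
    intro i hi
    have hi' : i ≤ h := by
      have := Finset.mem_range.mp hi
      omega
    rw [map_sum]
    have e5 : ∀ j ∈ range (h + 1), T (
        C ((-1) ^ (h - i) * (-l) ^ j * ((h.choose i : ℕ) : ZMod p) * ((h.choose j : ℕ) : ZMod p))
        * (N ^ (h + i + (h - j)) * D ^ (h + (h - i) + j)
          * (derivative N * D - N * derivative D)))
        = if i = j then
          C ((-1) ^ (h - i) * (-l) ^ j * ((h.choose i : ℕ) : ZMod p) * ((h.choose j : ℕ) : ZMod p))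
          * (X * (derivative N * D - N * derivative D)) else 0 := by
      intro j hj
      have hj' : j ≤ h := by
        have := Finset.mem_range.mp hj
        omega
      rw [T_C_mul, T_term hN hD _ _ (by omega)]
      by_cases hij : i = j
      · rw [if_pos (by omega), if_pos hij]
      · rw [if_neg (by omega), if_neg hij, mul_zero]
    rw [Finset.sum_congr rfl e5, Finset.sum_ite_eq, if_pos hi]
    congr 2
    have h1 : ((-1 : ZMod p)) ^ h = (-1) ^ (h - i) * (-1) ^ i := by
      rw [← pow_add]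
      congr 1
      omega
    rw [h1, neg_pow l i]
    ring
  rw [Finset.sum_congr rfl e4, ← Finset.sum_mul]
  congr 1
  rw [H, Finset.mul_sum, map_sum]

lemma good_X : Good (X : (ZMod p)[X]) := by
  have := good_lin (p := p) 1 0
  simpa using this

lemma good_one : Good (1 : (ZMod p)[X]) := by
  have := good_lin (p := p) 0 1
  simpa using this

/-- the three-isogeny gives equality of the two Hasse polynomials -/
lemma H_eq (h : ℕ) (hh : 2 * h + 1 = p) (h3 : 3 < p) (w : ZMod p) (hw : w ^ 2 = 13) :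
    H h (88 + 24 * w) = H h (88 - 24 * w) := by
  obtain ⟨W, hW⟩ : ∃ W : (ZMod p)[X], W = C w := ⟨_, rfl⟩
  have hW2 : W ^ 2 = 13 := by
    rw [hW, ← map_pow, hw]
    exact map_ofNat C 13
  obtain ⟨u, hu⟩ : ∃ u : (ZMod p)[X], u = X + 28 + 8 * W := ⟨_, rfl⟩
  obtain ⟨d, hd⟩ : ∃ d : (ZMod p)[X], d = (7 + 2 * W) * X + 22 + 6 * W := ⟨_, rfl⟩
  obtain ⟨N, hN⟩ : ∃ N : (ZMod p)[X], N = X * u * u := ⟨_, rfl⟩
  obtain ⟨D, hD⟩ : ∃ D : (ZMod p)[X], D = d * d := ⟨_, rfl⟩
  have gu : Good u := by
    have h1 := good_lin (p := p) 1 (28 + 8 * w)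
    have h2 : C (1 : ZMod p) * X + C (28 + 8 * w) = u := by
      rw [hu, hW]
      simp only [map_add, map_mul, map_one, map_ofNat]
      ring
    rwa [h2] at h1
  have gd : Good d := by
    have h1 := good_lin (p := p) (7 + 2 * w) (22 + 6 * w)
    have h2 : C (7 + 2 * w : ZMod p) * X + C (22 + 6 * w) = d := by
      rw [hd, hW]
      simp only [map_add, map_mul, map_ofNat]
      ring
    rwa [h2] at h1
  have gN : Good N := hN ▸ (good_X.mul gu).mul gu
  have gD : Good D := hD ▸ gd.mul gd
  have dW : derivative W = 0 := by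
    rw [hW, derivative_C]
  have du : derivative u = 1 := by
    rw [hu]
    simp [dW]
  have dd : derivative d = 7 + 2 * W := by
    rw [hd]
    simp [dW]
  obtain ⟨g, hg⟩ : ∃ g : (ZMod p)[X], g = d * u * (X - 22 - 6 * W) * (X - 4) := ⟨_, rfl⟩
  have dN : derivative N * D - N * derivative D = (7 + 2 * W) * g := by
    rw [hN, hD, derivative_mul, derivative_mul, derivative_mul, du, dd, derivative_X, hg, hu, hd]
    linear_combination (-8 * X ^ 3 * W - 28 * X ^ 3 - 64 * X ^ 2 * W ^ 2 - 472 * X ^ 2 * W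
      - 872 * X ^ 2 - 192 * X * W ^ 2 - 1376 * X * W - 2464 * X) * hW2
  have f1 : N - D = (X - 1) * (X - 22 - 6 * W) ^ 2 := by
    rw [hN, hD, hu, hd]
    linear_combination (-4 * X ^ 2 + 4 * X) * hW2
  have f2 : N - C (88 - 24 * w) * D = (X - C (88 + 24 * w)) * (X - 4) ^ 2 := by
    have h1 : C (88 - 24 * w : ZMod p) = 88 - 24 * W := by
      simp only [map_sub, map_mul, map_ofNat, hW]
    have h2 : C (88 + 24 * w : ZMod p) = 88 + 24 * W := by
      simp only [map_add, map_mul, map_ofNat, hW]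
    rw [h1, h2, hN, hD, hu, hd]
    linear_combination (96 * X ^ 2 * W + 320 * X ^ 2 + 576 * X * W + 2080 * X + 864 * W + 3168)
      * hW2
  obtain ⟨f, hf⟩ : ∃ f : (ZMod p)[X], f = X * (X - 1) * (X - C (88 + 24 * w)) := ⟨_, rfl⟩
  have e0 : N * (N - D) * (N - C (88 - 24 * w) * D)
      = f * (u * (X - 22 - 6 * W) * (X - 4)) ^ 2 := by
    rw [f1, f2, hf, hN]
    ring
  have e1 : (N * (N - D) * (N - C (88 - 24 * w) * D)) ^ h * D ^ h
      * (derivative N * D - N * derivative D) = C (7 + 2 * w) * (f ^ h * g ^ p) := by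
    have h1 : C (7 + 2 * w : ZMod p) = 7 + 2 * W := by
      simp only [map_add, map_mul, map_ofNat, hW]
    have h2 : g ^ p = g ^ (2 * h) * g := by
      rw [← pow_succ, hh]
    have h3 : (N * (N - D) * (N - C (88 - 24 * w) * D)) ^ h * D ^ h = f ^ h * g ^ (2 * h) := by
      rw [e0, ← mul_pow, pow_mul g, ← mul_pow]
      congr 1
      rw [hg, hD]
      ring
    rw [h1, h2, h3, dN]
    ring
  have t1 := T_sum gN gD h hh (88 - 24 * w)
  rw [e1, T_C_mul, T_mul_pow, dN] at t1
  have t2 := T_sum good_X good_one h hh (88 + 24 * w)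
  simp only [mul_one, derivative_X, derivative_one, mul_zero, sub_zero, one_pow] at t2
  rw [← hf] at t2
  rw [t2] at t1
  have h30 : (3 : ZMod p) ≠ 0 := by
    intro h0
    have h4 : ((3 : ℕ) : ZMod p) = 0 := by
      push_cast
      exact h0
    rw [ZMod.natCast_eq_zero_iff] at h4
    have := Nat.le_of_dvd (by norm_num) h4
    omega
  have s0 : (7 + 2 * w : ZMod p) ≠ 0 := by
    intro h0
    apply h30
    linear_combination (-(7 - 2 * w)) * h0 + (-4) * hw
  have hC : C (7 + 2 * w : ZMod p) = 7 + 2 * W := by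
    simp only [map_add, map_mul, map_ofNat, hW]
  have hs0 : (7 + 2 * W : (ZMod p)[X]) ≠ 0 := by
    rw [← hC]
    exact C_ne_zero.mpr s0
  have hu0 : u ≠ 0 := by
    have h2 : u = X + C (28 + 8 * w) := by
      rw [hu, hW]
      simp only [map_add, map_mul, map_ofNat]
      ring
    rw [h2]
    exact X_add_C_ne_zero _
  have hv0 : (X - 22 - 6 * W : (ZMod p)[X]) ≠ 0 := by
    have h2 : (X - 22 - 6 * W : (ZMod p)[X]) = X - C (22 + 6 * w) := by
      rw [hW]
      simp only [map_add, map_mul, map_ofNat]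
      ring
    rw [h2]
    exact X_sub_C_ne_zero _
  have h40 : (X - 4 : (ZMod p)[X]) ≠ 0 := by
    have h2 : (X - 4 : (ZMod p)[X]) = X - C 4 := by
      simp only [map_ofNat]
    rw [h2]
    exact X_sub_C_ne_zero _
  have hd0 : d ≠ 0 := by
    intro h0
    have h2 : d = C (7 + 2 * w) * X + C (22 + 6 * w) := by
      rw [hd, hW]
      simp only [map_add, map_mul, map_ofNat]
      ring
    have h3 : d.coeff 1 = 7 + 2 * w := by
      rw [h2]
      simp
    rw [h0, coeff_zero] at h3
    exact s0 h3.symm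
  have hg0 : g ≠ 0 := by
    rw [hg]
    exact mul_ne_zero (mul_ne_zero (mul_ne_zero hd0 hu0) hv0) h40
  have t3 : C ((-1) ^ h * H h (88 + 24 * w)) = C ((-1) ^ h * H h (88 - 24 * w)) := by
    have h1 : (X * ((7 + 2 * W) * g) : (ZMod p)[X]) ≠ 0 := mul_ne_zero X_ne_zero
      (mul_ne_zero hs0 hg0)
    apply mul_right_cancel₀ h1
    rw [← t1, hC]
    ring
  have t4 := C_injective t3
  exact mul_left_cancel₀ (pow_ne_zero _ (neg_ne_zero.mpr one_ne_zero)) t4

end Cartier

/-- The Lucas sequence `U_n(11,1)` -/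
def U : ℕ → ℤ
  | 0 => 0
  | 1 => 1
  | (n + 2) => 11 * U (n + 1) - U n

section main

variable {p : ℕ} [Fact p.Prime]

lemma U_pow (w : ZMod p) (hw : w ^ 2 = 13) (k : ℕ) :
    3 * w * (16 ^ k * ((U k : ℤ) : ZMod p)) = (88 + 24 * w) ^ k - (88 - 24 * w) ^ k := by
  induction k using Nat.twoStepInduction with
  | zero => simp [U]
  | one =>
    simp only [U]
    push_cast
    ring
  | more n h0 h1 =>
    have h2 : U (n + 2) = 11 * U (n + 1) - U n := rfl
    rw [h2]
    push_cast
    have e1 : (88 + 24 * w) ^ (n + 2) = 176 * (88 + 24 * w) ^ (n + 1) - 256 * (88 + 24 * w) ^ n := by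
      linear_combination (576 * (88 + 24 * w) ^ n) * hw
    have e2 : (88 - 24 * w) ^ (n + 2) = 176 * (88 - 24 * w) ^ (n + 1) - 256 * (88 - 24 * w) ^ n := by
      linear_combination (576 * (88 - 24 * w) ^ n) * hw
    rw [e1, e2]
    linear_combination 176 * h1 - 256 * h0

lemma central_eq (h : ℕ) (hh : 2 * h + 1 = p) (k : ℕ) (hk : k ≤ h) :
    (((2 * k).choose k : ℕ) : ZMod p) = (-4) ^ k * ((h.choose k : ℕ) : ZMod p) := by
  induction k with
  | zero => simp
  | succ k ih =>
    have ih' := ih (by omega)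
    have h0 : ((k + 1 : ℕ) : ZMod p) ≠ 0 := by
      intro h0
      rw [ZMod.natCast_eq_zero_iff] at h0
      have := Nat.le_of_dvd (by omega) h0
      omega
    have h1 := Nat.succ_mul_centralBinom_succ k
    rw [Nat.centralBinom_eq_two_mul_choose, Nat.centralBinom_eq_two_mul_choose] at h1
    have h1' := congrArg (Nat.cast : ℕ → ZMod p) h1
    have h2 := Nat.choose_succ_right_eq h k
    have h2' := congrArg (Nat.cast : ℕ → ZMod p) h2
    have h3 : ((h - k : ℕ) : ZMod p) = (h : ZMod p) - k := by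
      rw [Nat.cast_sub (by omega)]
    have h4 : (2 * (h : ZMod p) + 1) = 0 := by
      have : ((2 * h + 1 : ℕ) : ZMod p) = 0 := by
        rw [hh]
        simp
      push_cast at this
      exact this
    push_cast at h1' h2' h0
    rw [h3] at h2'
    rw [ih'] at h1'
    apply mul_left_cancel₀ h0
    rw [h1', pow_succ]
    linear_combination (4 * (-4) ^ k) * h2' + (2 * (-4) ^ k * ((h.choose k : ℕ) : ZMod p)) * h4

end main

/-- `p ∣ ∑_{k ≤ (p-1)/2} C(2k,k)² U_k(11,1)` for all primes `p > 3` which are squares modulo `13`. -/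
theorem result (p : ℕ) (hp : p.Prime) (h3 : 3 < p)
    (h13 : p % 13 = 1 ∨ p % 13 = 3 ∨ p % 13 = 4 ∨ p % 13 = 9 ∨ p % 13 = 10 ∨ p % 13 = 12) :
    (p : ℤ) ∣ ∑ k ∈ range ((p - 1) / 2 + 1), (((2 * k).choose k : ℕ) : ℤ) ^ 2 * U k := by
  have : Fact p.Prime := ⟨hp⟩
  have : Fact (Nat.Prime 13) := ⟨by norm_num⟩
  have hodd : p % 2 = 1 := by
    rcases hp.eq_two_or_odd with h | h
    · omega
    · exact h
  obtain ⟨h, hh⟩ : ∃ h, 2 * h + 1 = p := ⟨p / 2, by omega⟩
  have hh2 : (p - 1) / 2 = h := by omega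
  rw [hh2]
  have hsq : IsSquare ((13 : ℕ) : ZMod p) := by
    rw [← ZMod.exists_sq_eq_prime_iff_of_mod_four_eq_one (p := 13) (q := p) (by norm_num)
      (by omega)]
    have hc : ((p : ℕ) : ZMod 13) = ((p % 13 : ℕ) : ZMod 13) := by
      rw [ZMod.natCast_mod]
    rw [hc]
    rcases h13 with h | h | h | h | h | h <;> rw [h]
    · exact ⟨1, rfl⟩
    · exact ⟨4, rfl⟩
    · exact ⟨2, rfl⟩
    · exact ⟨3, rfl⟩
    · exact ⟨6, rfl⟩
    · exact ⟨5, rfl⟩
  obtain ⟨w, hw⟩ := hsq
  have hw2 : w ^ 2 = 13 := by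
    rw [pow_two, ← hw]
    norm_num
  have h30 : (3 : ZMod p) ≠ 0 := by
    intro h0
    have h4 : ((3 : ℕ) : ZMod p) = 0 := by
      push_cast
      exact h0
    rw [ZMod.natCast_eq_zero_iff] at h4
    have := Nat.le_of_dvd (by norm_num) h4
    omega
  have hw0 : w ≠ 0 := by
    rintro rfl
    have h4 : ((13 : ℕ) : ZMod p) = 0 := by
      rw [hw]
      ring
    rw [ZMod.natCast_eq_zero_iff] at h4
    have h5 := (Nat.prime_dvd_prime_iff_eq hp (by norm_num)).mp h4
    omega
  have key : 3 * w * (∑ k ∈ range (h + 1), (((2 * k).choose k : ℕ) : ZMod p) ^ 2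
      * ((U k : ℤ) : ZMod p)) = H h (88 + 24 * w) - H h (88 - 24 * w) := by
    rw [H, H, Finset.mul_sum, ← Finset.sum_sub_distrib]
    refine Finset.sum_congr rfl fun k hk => ?_
    have hk' : k ≤ h := by
      have := Finset.mem_range.mp hk
      omega
    rw [central_eq h hh k hk', ← mul_sub, ← U_pow w hw2 k]
    have h16 : (16 : ZMod p) ^ k = (-4) ^ k * (-4) ^ k := by
      rw [← mul_pow]
      norm_num
    rw [h16]
    ring
  rw [H_eq h hh h3 w hw2, sub_self] at key
  apply (ZMod.intCast_zmod_eq_zero_iff_dvd _ p).mp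
  push_cast
  rcases mul_eq_zero.mp key with h1 | h1
  · rcases mul_eq_zero.mp h1 with h2 | h2
    · exact absurd h2 h30
    · exact absurd h2 hw0
  · exact h1

end Pool.Agent.Results.MP_c87117_nt.Vanishing
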